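import Pool.Agent.Helper40.CN.Spec

/-!
# CN, part DIFF
-/

set_option autoImplicit false

namespace Pool.Agent.Helper19.CN

open Pool.Agent.Helper40.CN

universe u

theorem diff (h1 : S_CANT.{u}) : S_DIFF.{u} := by
  intro X _ _ _ _ _ _ Y _ _ _ E hE hcard hfin
  obtain ⟨O, hO, ⟨x0, hx0⟩, y, hy⟩ := h1 X Y E hE hcard
  have hcover : ∀ x : X, ∃ h : X, x ∈ (fun x => x * h⁻¹) ⁻¹' O := by
    intro x
    refine ⟨x0⁻¹ * x, ?_⟩
    simp only [Set.mem_preimage, mul_inv_rev, inv_inv, mul_inv_cancel_left]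
    exact hx0
  obtain ⟨t, ht⟩ := isCompact_univ.elim_finite_subcover (fun h : X => (fun x => x * h⁻¹) ⁻¹' O)
    (fun h => hO.preimage (continuous_mul_const _))
    (fun x _ => Set.mem_iUnion.2 (hcover x))
  have hf : (⋃ h ∈ t, (fun r => y * r) '' (Set.range fun x => (E x)⁻¹ * E (x * h))).Finite :=
    Set.Finite.biUnion t.finite_toSet fun h _ => (hfin h).image _
  refine hf.subset ?_
  rintro _ ⟨x, rfl⟩
  obtain ⟨h, hh, hx⟩ := Set.mem_iUnion₂.1 (ht (Set.mem_univ x))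
  refine Set.mem_iUnion₂.2 ⟨h, hh, _, ⟨x * h⁻¹, rfl⟩, ?_⟩
  have h2 : E (x * h⁻¹) = y := hy _ hx
  simp only [h2, inv_mul_cancel_right]
  rw [mul_inv_cancel_left]

end Pool.Agent.Helper19.CN
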