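import Pool.Agent.Helper40.CN.Spec

/-!
# CN, part FCC
-/

set_option autoImplicit false

namespace Pool.Agent.Helper19.CN

open Pool.Agent.Helper40.CN

universe u

theorem fcc (h1 : S_CANT.{u}) : S_FCC.{u} := by
  intro G _ _ _ _ _ _ k w hcard v hv
  have hE : Continuous fun x : G => x * v * x⁻¹ := by fun_prop
  have hsub : (Set.range fun x : G => x * v * x⁻¹) ⊆ wordValues w G := by
    rintro _ ⟨x, rfl⟩
    obtain ⟨g, rfl⟩ := hv
    refine ⟨fun i => x * g i * x⁻¹, ?_⟩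
    have h2 : FreeGroup.lift (fun i => x * g i * x⁻¹) =
        (MulAut.conj x).toMonoidHom.comp (FreeGroup.lift g) := by
      ext i
      simp
    simp only [h2]
    simp
  obtain ⟨O, hO, ⟨x0, hx0⟩, y, hy⟩ := h1 G G _ hE
    (lt_of_le_of_lt (Cardinal.mk_le_mk_of_subset hsub) hcard)
  have hcover : ∀ x : G, ∃ h : G, x ∈ (fun x => h⁻¹ * x) ⁻¹' O := by
    intro x
    refine ⟨x * x0⁻¹, ?_⟩
    simp only [Set.mem_preimage, mul_inv_rev, inv_inv, inv_mul_cancel_right]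
    exact hx0
  obtain ⟨t, ht⟩ := isCompact_univ.elim_finite_subcover (fun h : G => (fun x => h⁻¹ * x) ⁻¹' O)
    (fun h => hO.preimage (continuous_const_mul _))
    (fun x _ => Set.mem_iUnion.2 (hcover x))
  have hf : ((fun g : G => g * y * g⁻¹) '' (t : Set G)).Finite := t.finite_toSet.image _
  refine hf.subset ?_
  rintro _ ⟨x, rfl⟩
  obtain ⟨h, hh, hx⟩ := Set.mem_iUnion₂.1 (ht (Set.mem_univ x))
  refine ⟨h, hh, ?_⟩
  have h2 : (h⁻¹ * x) * v * (h⁻¹ * x)⁻¹ = y := hy _ hx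
  simp only [← h2]
  group

end Pool.Agent.Helper19.CN
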