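import Pool.Agent.Helper40.CN.Spec

/-!
# CN, part NFS
-/

set_option autoImplicit false

namespace Pool.Agent.Helper19.CN

open Pool.Agent.Helper40.CN

universe u

theorem nfs : S_NFS.{u} := by
  classical
  intro N _ hfg Δ z hΔ hz ⟨F, hF, hFe⟩
  obtain ⟨X0, hX0⟩ := hfg.out
  have hdec : ∀ y : N, ∃ d : N, d ∈ Δ ∧ (y ∈ F → ∃ n : ℤ, y = d * z ^ n) := by
    intro y
    by_cases hy : y ∈ F
    · have h1 : y ∈ Δ ⊔ Subgroup.zpowers z := by
        rw [hFe]
        exact Subgroup.subset_normalClosure hy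
      obtain ⟨d, hd, t, ht, rfl⟩ := Subgroup.mem_sup_of_normal_left.1 h1
      obtain ⟨n, rfl⟩ := Subgroup.mem_zpowers_iff.1 ht
      exact ⟨d, hd, fun _ => ⟨n, rfl⟩⟩
    · exact ⟨1, Δ.one_mem, fun h => absurd h hy⟩
  choose d hd hde using hdec
  let H : AddSubgroup ℤ :=
    { carrier := {n | z ^ n ∈ Δ}
      add_mem' := by
        intro a b ha hb
        simp only [Set.mem_ofPred_eq] at ha hb ⊢
        rw [zpow_add]
        exact Δ.mul_mem ha hb
      zero_mem' := by simp [Δ.one_mem]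
      neg_mem' := by
        intro a ha
        simp only [Set.mem_ofPred_eq] at ha ⊢
        rw [zpow_neg]
        exact Δ.inv_mem ha }
  obtain ⟨e, he⟩ := Int.subgroup_cyclic H
  have heH : z ^ e ∈ Δ := by
    have : e ∈ H := by
      rw [he]
      exact AddSubgroup.subset_closure rfl
    exact this
  set F' : Set N := (d '' F) ∪ ((fun x => z * x * z⁻¹ * x⁻¹) '' (X0 : Set N)) ∪ {z ^ e} with hF'
  refine ⟨F', ?_, ?_⟩
  · exact ((hF.image _).union (X0.finite_toSet.image _)).union (Set.finite_singleton _)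
  apply le_antisymm
  · set Δ1 := Subgroup.normalClosure F' with hΔ1
    have hΔ1Δ : Δ1 ≤ Δ := by
      apply Subgroup.normalClosure_le_normal
      rintro x ((⟨y, _, rfl⟩ | ⟨x, _, rfl⟩) | rfl)
      · exact hd y
      · exact hz x
      · exact heH
    -- z is central modulo Δ1
    have hcen : ∀ g : N, (QuotientGroup.mk' Δ1 z) * (QuotientGroup.mk' Δ1 g) =
        (QuotientGroup.mk' Δ1 g) * (QuotientGroup.mk' Δ1 z) := by
      intro g
      have h1 : (⊤ : Subgroup N) ≤
          (Subgroup.centralizer {QuotientGroup.mk' Δ1 z}).comap (QuotientGroup.mk' Δ1) := by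
        rw [← hX0, Subgroup.closure_le]
        intro x hx
        simp only [Subgroup.coe_comap, Set.mem_preimage, SetLike.mem_coe,
          Subgroup.mem_centralizer_singleton_iff]
        have h2 : z * x * z⁻¹ * x⁻¹ ∈ Δ1 :=
          Subgroup.subset_normalClosure (Or.inl (Or.inr ⟨x, hx, rfl⟩))
        have h3 : QuotientGroup.mk' Δ1 (z * x * z⁻¹ * x⁻¹) = 1 :=
          (QuotientGroup.eq_one_iff _).2 h2
        rw [map_mul, map_mul, map_mul, map_inv, map_inv, mul_inv_eq_one, mul_inv_eq_iff_eq_mul] at h3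
        exact h3.symm
      have h2 := h1 (Subgroup.mem_top g)
      simp only [Subgroup.mem_comap, Subgroup.mem_centralizer_singleton_iff] at h2
      exact h2.symm
    have hKn : ∀ g k : N, k ∈ Δ1 ⊔ Subgroup.zpowers z → g * k * g⁻¹ ∈ Δ1 ⊔ Subgroup.zpowers z := by
      intro g k hk
      obtain ⟨δ, hδ, t, ht, rfl⟩ := Subgroup.mem_sup_of_normal_left.1 hk
      obtain ⟨n, rfl⟩ := Subgroup.mem_zpowers_iff.1 ht
      have h3 : g * (δ * z ^ n) * g⁻¹ = (g * δ * g⁻¹) * (g * z * g⁻¹) ^ n := by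
        rw [conj_zpow]
        group
      rw [h3]
      refine Subgroup.mul_mem _ (Subgroup.mem_sup_left ?_) (Subgroup.zpow_mem _ ?_ n)
      · exact Subgroup.normalClosure_normal.conj_mem δ hδ g
      · have h4 : g * z * g⁻¹ = (g * z * g⁻¹ * z⁻¹) * z := by group
        rw [h4]
        refine Subgroup.mul_mem _ (Subgroup.mem_sup_left ?_)
          (Subgroup.mem_sup_right (Subgroup.mem_zpowers z))
        apply (QuotientGroup.eq_one_iff (N := Δ1) _).1
        change QuotientGroup.mk' Δ1 (g * z * g⁻¹ * z⁻¹) = 1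
        rw [map_mul, map_mul, map_mul, map_inv, map_inv, mul_inv_eq_one, mul_inv_eq_iff_eq_mul]
        exact (hcen g).symm
    have : (Δ1 ⊔ Subgroup.zpowers z).Normal := ⟨fun k hk g => hKn g k hk⟩
    have hFK : F ⊆ (Δ1 ⊔ Subgroup.zpowers z : Subgroup N) := by
      intro y hy
      obtain ⟨n, hn⟩ := hde y hy
      rw [hn]
      refine Subgroup.mul_mem _ (Subgroup.mem_sup_left ?_)
        (Subgroup.mem_sup_right (Subgroup.zpow_mem_zpowers z n))
      exact Subgroup.subset_normalClosure (Or.inl (Or.inl ⟨y, hy, rfl⟩))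
    have hle : Δ ≤ Δ1 ⊔ Subgroup.zpowers z :=
      le_trans (le_trans le_sup_left hFe.le) (Subgroup.normalClosure_le_normal hFK)
    intro x hx
    obtain ⟨δ, hδ, t, ht, rfl⟩ := Subgroup.mem_sup_of_normal_left.1 (hle hx)
    obtain ⟨n, rfl⟩ := Subgroup.mem_zpowers_iff.1 ht
    have h5 : z ^ n ∈ Δ := by
      have h6 := Δ.mul_mem (Δ.inv_mem (hΔ1Δ hδ)) hx
      rwa [inv_mul_cancel_left] at h6
    have h7 : n ∈ H := h5
    rw [he, AddSubgroup.mem_closure_singleton] at h7
    obtain ⟨c, rfl⟩ := h7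
    refine Δ1.mul_mem hδ ?_
    rw [smul_eq_mul, mul_comm, zpow_mul]
    exact Δ1.zpow_mem (Subgroup.subset_normalClosure (Or.inr rfl)) c
  · apply Subgroup.normalClosure_le_normal
    rintro x ((⟨y, _, rfl⟩ | ⟨x, _, rfl⟩) | rfl)
    · exact hd y
    · exact hz x
    · exact heH

end Pool.Agent.Helper19.CN
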