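import Pool.Agent.Helper40.CN.Spec

/-!
# CN, part UNI
-/

set_option autoImplicit false

namespace Pool.Agent.Helper19.CN

open Pool.Agent.Helper40.CN Topology

universe u

theorem uni : S_UNI.{u} := by
  intro G _ _ _ _ _ _ k Z _ _ f hf hfin
  have hlc : ∀ z : Z, z ∈ Set.range f → IsOpen (f ⁻¹' {z}) := by
    intro z _
    have h1 : f ⁻¹' {z} = (f ⁻¹' (Set.range f \ {z}))ᶜ := by
      ext g
      simp only [Set.mem_preimage, Set.mem_singleton_iff, Set.mem_compl_iff, Set.mem_sdiff,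
        Set.mem_range_self, true_and, not_not]
    rw [h1, isOpen_compl_iff]
    exact (hfin.subset Set.sdiff_subset).isClosed.preimage hf
  have hW : IsOpen {p : (Fin k → G) × (Fin k → G) | f (p.1 * p.2) = f p.1} := by
    have h1 : {p : (Fin k → G) × (Fin k → G) | f (p.1 * p.2) = f p.1} =
        ⋃ z ∈ Set.range f, ((fun p : (Fin k → G) × (Fin k → G) => p.1 * p.2) ⁻¹' (f ⁻¹' {z})) ∩
          ((fun p : (Fin k → G) × (Fin k → G) => p.1) ⁻¹' (f ⁻¹' {z})) := by
      ext p
      constructor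
      · intro hp
        exact Set.mem_iUnion₂.2 ⟨f p.1, ⟨p.1, rfl⟩, hp, rfl⟩
      · intro hp
        obtain ⟨z, _, h2, h3⟩ := Set.mem_iUnion₂.1 hp
        have h2' : f (p.1 * p.2) = z := h2
        have h3' : f p.1 = z := h3
        exact h2'.trans h3'.symm
    rw [h1]
    refine isOpen_biUnion fun z hz => ?_
    exact ((hlc z hz).preimage (continuous_fst.mul continuous_snd)).inter
      ((hlc z hz).preimage continuous_fst)
  obtain ⟨a, b, _, hb, hau, hb1, hab⟩ := generalized_tube_lemma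
    (isCompact_univ (X := Fin k → G)) (isCompact_singleton (x := (1 : Fin k → G))) hW (by
      rintro ⟨p, q⟩ ⟨_, hq⟩
      have hq' : q = 1 := hq
      subst hq'
      simp)
  have hb2 : b ∈ 𝓝 (1 : Fin k → G) := hb.mem_nhds (hb1 rfl)
  rw [nhds_pi, Filter.mem_pi'] at hb2
  obtain ⟨I, s, hs, hsb⟩ := hb2
  have hint : (⋂ i : Fin k, s i) ∈ 𝓝 (1 : G) := Filter.iInter_mem.2 fun i => hs i
  obtain ⟨O, hO1, hO2, hO3⟩ := mem_nhds_iff.1 hint
  obtain ⟨H, hH⟩ := ProfiniteGrp.exist_openNormalSubgroup_sub_open_nhds_of_one hO2 hO3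
  refine ⟨H.toSubgroup, inferInstance, H.isOpen', ?_⟩
  intro g v hv
  have h2 : ((g, v) : (Fin k → G) × (Fin k → G)) ∈
      {p : (Fin k → G) × (Fin k → G) | f (p.1 * p.2) = f p.1} := by
    apply hab
    refine ⟨hau (Set.mem_univ _), hsb ?_⟩
    intro i _
    exact Set.mem_iInter.1 (hO1 (hH (hv i))) i
  exact h2

end Pool.Agent.Helper19.CN
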